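import Pool.Agent.H849.MX.Main

/-!
# mw purity for zero loci of ample vector bundles and for complete intersections of different classes

Let `X` be a projective strictly semistable scheme of relative dimension `n + c`, `E` an ample vector
bundle of rank `c` on `X`, for example a sum of ample line bundles `A_1, …, A_c`, and `Z → X` the
zero locus of a section of `E` which is transversal to the strata of the special fibre, or an ample
covering of it. Assume that the cohomology of the `(a + 1)`-fold intersections of the components of the
special fibre of `X` satisfies the mixed Hodge-Riemann relations for `T = c_c(E)` (`= A_1 ⋯ A_c`) and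
the polarization `L` in the degrees `m` with `a ≥ 1` and `a + m ≤ min (j, 2n - j)`. Then `H^j` of the
geometric generic fibre of `Z` is mw pure.

For example, this applies to complete intersections of arbitrary ample multidegrees in products of
curves with arbitrary bad reduction, and in schemes uniformized by Drinfeld's upper half spaces, and in
their products with schemes of good reduction.
-/

set_option autoImplicit false

namespace Pool.Agent.Results.MP_855f4c_ag.AmpleZeroLoci

open Pool.Agent.Y143 Pool.Agent.H849.SEC Pool.Agent.H849.MX

universe u v

theorem result {Ω : Type u} [Field Ω] [CharZero Ω] [IsAlgClosed Ω] {Γ : Type} {n c q : ℕ}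
    (hq : 1 < q) (X : SpecialFibre.{u, v} Ω Γ (n + c) q) (T : ∀ a, Module.End Ω (X.H a))
    (hX : IsLefschetzClass n c X.toStrataData T) (Z : SemistableModel.{u, v} Ω Γ n q)
    (hZ : HasSectionMap n X.toStrataData Z.toStrataData T) (j : ℕ)
    (hP : IsMixedPolarised X.toStrataData T n (min (j : ℤ) (2 * n - j))) : IsPureIn Z j :=
  pure_of_mixed hq hX hZ j hP

end Pool.Agent.Results.MP_855f4c_ag.AmpleZeroLoci
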