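import Pool.Agent.H849.LM.Main

/-!
# Lefschetz maps: the failure of mw purity only depends on the ambient scheme

Let `X` be a projective strictly semistable scheme, and let `f : Z → X` and `f' : Z' → X` be Lefschetz
maps (for example inclusions of complete intersections of ample divisors, of zero schemes of sections
of ample vector bundles, or ample coverings, always transversal to the strata), `Z` and `Z'` of relative
dimension `n`. Assume that the kernels of `f^*` and of `f'^*` on the cohomology of the strata of `X` are
the same; this is the case if `f_* f^*` and `f'_* f'^*` are proportional, for example if `Z` and `Z'` are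
complete intersections of divisors with proportional classes. Then `H^j` of the geometric generic fibre
of `Z` is mw pure if and only if this holds for `Z'`. More precisely, the dimensions of the kernels and
of the cokernels of `N ^ k : gr_(j + k) → gr_(j - k)` are the same for `Z` and `Z'`, and they are bounded
by the dimensions of the terms of the weight spectral sequence of `X`.

Only the special fibres are used, so that `Z` and `Z'` may live over different discrete valuation rings.
-/

set_option autoImplicit false

namespace Pool.Agent.Results.MP_855f4c_ag.LefschetzMaps

open Pool.Agent.Y143 Pool.Agent.H849.SEC Pool.Agent.H849.LM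

universe u v

theorem result {Ω : Type u} [Field Ω] [CharZero Ω] [IsAlgClosed Ω] {Γ Γ' : Type} {N n q : ℕ}
    (hq : 1 < q) (X : SpecialFibre.{u, v} Ω Γ N q) (Z Z' : SemistableModel.{u, v} Ω Γ' n q)
    (f : PullBacks X.toStrataData Z.toStrataData) (f' : PullBacks X.toStrataData Z'.toStrataData)
    (hf : IsLefschetzMap n f) (hf' : IsLefschetzMap n f') (h : HaveSameKernels f f') (j : ℕ) :
    (IsPureIn Z j ↔ IsPureIn Z' j) ∧ (IsPureIn Z j ↔ NoDefects Z j) ∧ SameDefects Z Z' j ∧
      DefectsAtMost X Z j := by
  have h1 := same_defects hf hf' h j
  refine ⟨?_, pure_iff_defects hq j, h1, defect_le hf j⟩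
  rw [pure_iff_defects hq j, pure_iff_defects hq j]
  refine forall_congr' fun k => forall_congr' fun hk => ?_
  rw [(h1 k hk).1, (h1 k hk).2]

end Pool.Agent.Results.MP_855f4c_ag.LefschetzMaps
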