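import Pool.Agent.H849.NC.Stat
import Pool.Agent.H849.NC.Lef
import Pool.Agent.H849.NC.Dual

/-!
# MP_855f4c_ag: a numerical criterion, and sections and coverings of `X × G`

Let `X` be a projective strictly semistable scheme of relative dimension `n` over `O`, with a
polarization. `X ℓ : SemistableModel (Ω ℓ) Γ n q` is its cohomology for the prime `ℓ`. For `1 ≤ m ≤ n`
let `Z m → X` be an ample map, `Z m` of relative dimension `m`: for example `Z n = X` and `Z m` is a
complete intersection of divisors of sections of multiples of the polarization, transversal to the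
strata of the special fibre.

On the total `E_1` term of the weight spectral sequence of `X` act `N`, its companion `N'`
(multiplications by rational numbers), the Lefschetz operator, the dual Lefschetz operator `Λ` of the
strata and `d_1`. Let `δ = [N', [Λ, d_1]]` and `Δ = d_1 δ + δ d_1`.
-/

set_option autoImplicit false

universe u v

namespace Pool.Agent.Results.MP_855f4c_ag.NumericalCriterion

open Pool.Agent.Y143 Pool.Agent.H849.SF Pool.Agent.H849.SEC Pool.Agent.H849.NC

/-- The multiplicity of the eigenvalue `0` of the Laplace operator `Δ` of the special fibre. -/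
noncomputable def nullity {Ω : Type u} [Field Ω] [CharZero Ω] {Γ : Type} {n q : ℕ}
    (X : SemistableModel.{u, v} Ω Γ n q) (lam : ∀ a, Module.End Ω (X.H a)) : ℕ :=
  (laplace X.toStrataData lam).charpoly.rootMultiplicity 0

/-- **A numerical criterion for the monodromy-weight conjecture.**

(1) Suppose that `H^m` of the geometric generic fibre of `Z m` is mw pure for `1 ≤ m ≤ n` (this is known
for `m ≤ 2`). Then for all the `Z` with an ample map `Z → X`, and for all the `Z` with a Lefschetz map `Z → X × G` of class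
`∑ L ^ i ⊗ β_i` (`G` of good reduction, `β_i` arbitrary classes on `G`), all the cohomology groups of
the geometric generic fibre of `Z` are mw pure.

(2) The sum of the Betti numbers of `X` is at most the multiplicity of the eigenvalue `0` of `Δ`;
equality holds if and only if `H^m` of `Z m` is mw pure for `1 ≤ m ≤ n`, and if and only if `d_1`
vanishes on the null component of `Δ`.

(3) Suppose that the characteristic polynomial of `Δ` is rational and independent of `ℓ` (this is the
case if `Λ` is given by algebraic cycles, i.e. if the strata satisfy the standard conjecture of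
Lefschetz type), and that the sums of the Betti numbers of `X` for `ℓ` and `ℓ'` are the same. Then
`H^m` of `Z m` is mw pure for `1 ≤ m ≤ n` for `ℓ` if and only if this holds for `ℓ'`. -/
theorem result {ι : Type} {Ω : ι → Type u} [∀ ℓ, Field (Ω ℓ)] [∀ ℓ, CharZero (Ω ℓ)]
    [∀ ℓ, IsAlgClosed (Ω ℓ)] {Γ : Type} {n q : ℕ} (hq : 1 < q)
    (X : ∀ ℓ, SemistableModel.{u, v} (Ω ℓ) Γ n q)
    (hX : ∀ ℓ, (X ℓ).toStrataData.HasHardLefschetz n)
    (Z : ∀ ℓ m, SemistableModel.{u, v} (Ω ℓ) Γ m q)
    (hZ : ∀ ℓ, AreSections n (X ℓ).toStrataData (Z ℓ)) :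
    (∀ ℓ, MiddlePure n (Z ℓ) →
      PureOnSections n q (X ℓ).toStrataData ∧ PureOnProducts (X ℓ).toStrataData) ∧
    (∀ ℓ, ∃ lam, AreDual n (X ℓ).toStrataData lam) ∧
    ∀ lam : ∀ ℓ a, Module.End (Ω ℓ) ((X ℓ).H a),
      (∀ ℓ, AreDual n (X ℓ).toStrataData (lam ℓ)) →
        (∀ ℓ, bettiSum (X ℓ) ≤ nullity (X ℓ) (lam ℓ) ∧
          (bettiSum (X ℓ) = nullity (X ℓ) (lam ℓ) ↔ MiddlePure n (Z ℓ)) ∧
          (StrongForm (X ℓ).toStrataData (lam ℓ) ↔ MiddlePure n (Z ℓ))) ∧
        ∀ R : Polynomial ℚ, (∀ ℓ, (laplace (X ℓ).toStrataData (lam ℓ)).charpoly =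
            R.map (algebraMap ℚ (Ω ℓ))) → ∀ ℓ ℓ', bettiSum (X ℓ) = bettiSum (X ℓ') →
          (MiddlePure n (Z ℓ) ↔ MiddlePure n (Z ℓ')) := by
  have hd : ∀ ℓ, ∃ lam, AreDual n (X ℓ).toStrataData lam :=
    fun ℓ => exists_dual (X ℓ).toSpecialFibre
  have hsec : ∀ ℓ lam, AreDual n (X ℓ).toStrataData lam →
      StrongForm (X ℓ).toStrataData lam → PureOnSections n q (X ℓ).toStrataData := by
    intro ℓ lam hl hs m c Z' hmc hZ'
    subst hmc
    exact pure_of_strong_section hq (X := (X ℓ).toSpecialFibre) hl hs hZ'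
  have hiff : ∀ ℓ lam, AreDual n (X ℓ).toStrataData lam →
      (StrongForm (X ℓ).toStrataData lam ↔ MiddlePure n (Z ℓ)) := by
    intro ℓ lam hl
    constructor
    · intro hs m h3 hm
      obtain ⟨c, hc⟩ := Nat.exists_eq_add_of_le hm
      exact hsec ℓ lam hl hs m c (Z ℓ m) hc.symm (hZ ℓ m c h3 hc.symm) m
    · exact strong_of_sections hq hl (hX ℓ) (Z ℓ) (hZ ℓ)
  refine ⟨fun ℓ hp => ?_, hd, fun lam hl => ⟨fun ℓ => ?_, fun R hR ℓ ℓ' hb => ?_⟩⟩
  · obtain ⟨lam, hl⟩ := hd ℓ
    have hs := (hiff ℓ lam hl).2 hp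
    exact ⟨hsec ℓ lam hl hs, fun Γ' Γ'' N m q' q'' r Y P Z' f M hq'' hf hM =>
      pure_of_poly P hl hs hf hM hq''⟩
  · have h1 := betti_le (X ℓ) (hl ℓ)
    exact ⟨h1.1, h1.2.trans (hiff ℓ _ (hl ℓ)), hiff ℓ _ (hl ℓ)⟩
  · have hroot : ∀ ℓ, (laplace (X ℓ).toStrataData (lam ℓ)).charpoly.rootMultiplicity 0 =
        R.rootMultiplicity 0 := fun ℓ => by
      have h1 := Polynomial.eq_rootMultiplicity_map (p := R)
        (f := algebraMap ℚ (Ω ℓ)) (algebraMap ℚ (Ω ℓ)).injective 0
      rw [map_zero] at h1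
      have h2 := hR ℓ
      rw [h1, ← h2]
    rw [← hiff ℓ _ (hl ℓ), ← hiff ℓ' _ (hl ℓ'), ← (betti_le (X ℓ) (hl ℓ)).2,
      ← (betti_le (X ℓ') (hl ℓ')).2, hroot, hroot, hb]

end Pool.Agent.Results.MP_855f4c_ag.NumericalCriterion
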