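import Pool.Agent.H849.PM.Main

/-!
# mw purity for sections of products of curves, surfaces and polarised schemes

(1) Let `X_1, …, X_s` be projective log smooth (for example strictly semistable) schemes over `O` with
polarizations `L_i`, each of which is a curve, or a surface, or a scheme of any dimension which is
polarised (the strata of the special fibre satisfy the Hodge-Riemann relations), or a scheme with mw
pure middle cohomology of the sections and Laplace operator of one sign. Let `G` be projective of good
reduction, and `L = t_1 L_1 + ⋯ + t_s L_s`, `t_i > 0` rational. Let `Z` be log smooth with a Lefschetz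
map `f : Z → X_1 × ⋯ × X_s × G` with `f_* 1 = ∑ L ^ k ⊗ β_k`, `β_k` any classes on `G`: for example a
complete intersection of divisors of the classes `a_j L + b_j`, `b_j` on `G`, transversal to the strata,
or a covering of one. Then all the cohomology groups `H^i` of the geometric generic fibre of `Z` are mw
pure.

(2) The same is true for the Lefschetz maps `f : Z → W` to any projective log smooth scheme `W` if the
class `Θ = f_* 1` is polarised: the quotient of the `E_1` term of `W` by the kernel of `Θ` satisfies the
(mixed) Hodge-Riemann relations. For example `W = X_1 × ⋯ × X_s × G` and `Θ = A_1 ⋯ A_c` with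
`A_j = ∑ t_ij L_i + b_j`, `t_ij > 0` and `b_j` ample on `G`: complete intersections of different ample
divisors.
-/

set_option autoImplicit false

namespace Pool.Agent.Results.MP_855f4c_ag.ProductsWithBadReduction

open Pool.Agent.H849.PX Pool.Agent.H849.PM

universe u v

theorem result {Ω : Type u} [Field Ω] [CharZero Ω] [IsAlgClosed Ω] {P : Set Ω}
    (hP : IsPositiveCone P) {e : Ω} (he : e * e = 1) :
    (∀ (s : ℕ) (A : Fin s → LogScheme.{u, v} Ω) (_ : ∀ i, (A i).IsAdmissible P e)
      (t : Fin s → ℚ) (_ : ∀ i, 0 < t i), AllPure A fun i => (t i : Ω)) ∧
    ∀ W : LogScheme.{u, v} Ω, PureOverClasses W P e :=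
  ⟨fun _ A hA t ht => allPure hP he A hA t ht, fun W => pureOverClasses hP he W⟩

end Pool.Agent.Results.MP_855f4c_ag.ProductsWithBadReduction
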